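import Pool.Agent.Q99.SML2.Main2

/-!
# Coefficients in the exponential variable are polynomials in the exponents
-/

set_option autoImplicit false

open Finset LaurentPolynomial Pool.Agent.H891R2.Jones Pool.Agent.W639.RB

namespace Q99.SML4

open Q99.SML Q99.SML2

/-! ### discrete antiderivatives -/

theorem exists_anti (q : Polynomial ℚ) : ∃ Q : Polynomial ℚ, ∀ x : ℚ,
    Q.eval (x + 1) - Q.eval x = q.eval x := by
  induction q using Polynomial.induction_on' with
  | add p q hp hq =>
    obtain ⟨P, hP⟩ := hp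
    obtain ⟨Q, hQ⟩ := hq
    refine ⟨P + Q, fun x => ?_⟩
    rw [Polynomial.eval_add, Polynomial.eval_add, Polynomial.eval_add, ← hP, ← hQ]
    ring
  | monomial n a =>
    refine ⟨Polynomial.C (a / (n + 1)) * Polynomial.bernoulli (n + 1), fun x => ?_⟩
    have h := Polynomial.bernoulli_eval_one_add (n + 1) x
    rw [Polynomial.eval_mul, Polynomial.eval_mul, Polynomial.eval_C, Polynomial.eval_C, add_comm x 1,
      h, Polynomial.eval_monomial]
    have h1 : ((n : ℚ) + 1) ≠ 0 := by positivity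
    push_cast
    field_simp
    ring

theorem poly_of_diff (g : ℤ → ℚ) (q : Polynomial ℚ)
    (h : ∀ z : ℤ, g (z + 1) - g z = q.eval (z : ℚ)) :
    ∃ p : Polynomial ℚ, ∀ z : ℤ, g z = p.eval (z : ℚ) := by
  obtain ⟨Q, hQ⟩ := exists_anti q
  refine ⟨Q + Polynomial.C (g 0 - Q.eval 0), ?_⟩
  have hstep : ∀ z : ℤ, g (z + 1) - Q.eval ((z : ℚ) + 1) = g z - Q.eval (z : ℚ) := by
    intro z
    have h1 := h z
    have h2 := hQ (z : ℚ)
    linarith
  have key : ∀ z : ℤ, g z - Q.eval (z : ℚ) = g 0 - Q.eval 0 := by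
    intro z
    induction z using Int.induction_on with
    | zero => simp
    | succ i ih =>
      have := hstep i
      push_cast at this ⊢
      rw [this]
      push_cast at ih
      exact ih
    | pred i ih =>
      have := hstep (-(i : ℤ) - 1)
      push_cast at this ih ⊢
      rw [sub_add_cancel, sub_add_cancel] at this
      rw [← this]
      exact ih
  intro z
  rw [Polynomial.eval_add, Polynomial.eval_C, ← key z]
  ring

/-- the field of coefficients: power series -/
abbrev KK : Type := PowerSeries ℚ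

theorem pow_poly {V : Type*} [AddCommGroup V] [Module KK V] (N : (Module.End KK V)ˣ)
    (B : Module.End KK V) (hN : N.1 = 1 + (PowerSeries.X : KK) • B) (l : V →ₗ[KK] KK) :
    ∀ (i : ℕ) (v : V), ∃ p : Polynomial ℚ, ∀ z : ℤ,
      PowerSeries.coeff i (l ((N ^ z : (Module.End KK V)ˣ).1 v)) = p.eval (z : ℚ) := by
  intro i
  have hdiff : ∀ (v : V) (z : ℤ), l ((N ^ (z + 1) : (Module.End KK V)ˣ).1 v) -
      l ((N ^ z : (Module.End KK V)ˣ).1 v) =
        PowerSeries.X * l ((N ^ z : (Module.End KK V)ˣ).1 (B v)) := by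
    intro v z
    rw [zpow_add_one, Units.val_mul, Module.End.mul_apply, hN, LinearMap.add_apply,
      Module.End.one_apply, LinearMap.smul_apply, map_add, map_add, map_smul, map_smul,
      smul_eq_mul]
    ring
  induction i with
  | zero =>
    intro v
    refine poly_of_diff _ 0 fun z => ?_
    rw [← map_sub, hdiff, PowerSeries.coeff_zero_X_mul]
    simp
  | succ i ih =>
    intro v
    obtain ⟨q, hq⟩ := ih (B v)
    refine poly_of_diff _ q fun z => ?_
    rw [← map_sub, hdiff, PowerSeries.coeff_succ_X_mul, hq]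

/-! ### operators with polynomial coefficients -/

variable {m : ℕ}

/-- the coefficients are polynomials in the parameters -/
def PolyOp {σ : Type} (Φ : (σ → ℤ) → Module.End KK (NX m → KK)) : Prop :=
  ∀ (v : NX m → KK) (f : NX m) (i : ℕ), ∃ p : MvPolynomial σ ℚ, ∀ q : σ → ℤ,
    PowerSeries.coeff i (Φ q v f) = MvPolynomial.eval (fun s => (q s : ℚ)) p

theorem PolyOp.const {σ : Type} (Z : Module.End KK (NX m → KK)) :
    PolyOp (fun _ : σ → ℤ => Z) :=
  fun v f i => ⟨MvPolynomial.C (PowerSeries.coeff i (Z v f)), fun q => by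
    rw [MvPolynomial.eval_C]⟩

theorem PolyOp.comp {σ : Type} {Φ Ψ : (σ → ℤ) → Module.End KK (NX m → KK)} (h : PolyOp Φ)
    (h' : PolyOp Ψ) : PolyOp (fun q => Φ q * Ψ q) := by
  classical
  intro v f i
  choose p1 hp1 using fun (y : NX m) (a : ℕ) => h' v y a
  choose p2 hp2 using fun (y : NX m) (b : ℕ) => h (Pi.single y 1) f b
  refine ⟨∑ y, ∑ x ∈ Finset.HasAntidiagonal.antidiagonal i, p1 y x.1 * p2 y x.2, fun q => ?_⟩
  have h1 : Ψ q v = ∑ y, Ψ q v y • (Pi.single y 1 : NX m → KK) := by
    funext x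
    rw [Finset.sum_apply, Finset.sum_eq_single x]
    · simp
    · intro y _ hy
      simp [Pi.single_apply, hy.symm]
    · intro hx
      exact absurd (Finset.mem_univ _) hx
  rw [Module.End.mul_apply, h1, map_sum, Finset.sum_apply, map_sum, map_sum]
  refine Finset.sum_congr rfl fun y _ => ?_
  rw [map_smul, Pi.smul_apply, smul_eq_mul, PowerSeries.coeff_mul, map_sum]
  refine Finset.sum_congr rfl fun x _ => ?_
  rw [map_mul, hp1, hp2]

theorem PolyOp.power {σ : Type} (N : (Module.End KK (NX m → KK))ˣ)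
    (B : Module.End KK (NX m → KK)) (hN : N.1 = 1 + (PowerSeries.X : KK) • B) (j : σ) :
    PolyOp (fun q : σ → ℤ => (N ^ (q j) : (Module.End KK (NX m → KK))ˣ).1) := by
  intro v f i
  obtain ⟨p, hp⟩ := pow_poly N B hN (LinearMap.proj f) i v
  refine ⟨Polynomial.aeval (MvPolynomial.X j) p, fun q => ?_⟩
  have h1 := hp (q j)
  have h2 : MvPolynomial.eval (fun s => (q s : ℚ)) (Polynomial.aeval (MvPolynomial.X j) p) =
      p.eval ((q j : ℤ) : ℚ) := by
    rw [← MvPolynomial.coe_aeval_eq_eval, RingHom.coe_coe, ← Polynomial.aeval_algHom_apply,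
      MvPolynomial.aeval_X, Polynomial.aeval_def, Algebra.algebraMap_self, Polynomial.eval₂_id]
  rw [h2, ← h1]
  rfl

theorem PolyOp.rename {σ τ : Type} (e : σ → τ) {Φ : (σ → ℤ) → Module.End KK (NX m → KK)}
    (h : PolyOp Φ) : PolyOp (fun q : τ → ℤ => Φ (q ∘ e)) := by
  intro v f i
  obtain ⟨p, hp⟩ := h v f i
  refine ⟨MvPolynomial.rename e p, fun q => ?_⟩
  rw [hp, MvPolynomial.eval_rename]
  rfl

/-! ### triviality at `h = 0` -/

theorem zpow_shift (w : Word) (z : ℤ) (s : St m) (c : ℤ) :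
    (QU m w ^ z) (s.1, s.2 + c) = (((QU m w ^ z) s).1, ((QU m w ^ z) s).2 + c) := by
  rcases z with z | z
  · exact QU_pow_shift w z s c
  · rw [zpow_negSucc, ← inv_pow, ← QU_invWord]
    exact QU_pow_shift _ _ s c

theorem trivial_X (a : KKˣ) (ha : PowerSeries.constantCoeff (a : KK) = 1) (w : Word) (P : ℕ)
    (hP : wperm m w ^ P = 1) (e : ℤ) (he : Even (e - ((idx m w).length * P : ℕ))) :
    ∃ B : Module.End KK (NX m → KK),
      (sU (eta a ^ e) * WU a w ^ P : (Module.End KK (NX m → KK))ˣ).1 =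
        1 + (PowerSeries.X : KK) • B := by
  set N := (sU (eta a ^ e) * WU a w ^ P : (Module.End KK (NX m → KK))ˣ).1 with hN
  let φ : KK →+* ℚ := PowerSeries.constantCoeff
  have ha1 : Units.map (φ : KK →* ℚ) a = 1 := by
    apply Units.ext
    exact ha
  have key : ∀ (v : NX m → KK) (f : NX m), ∃ y, N v f - v f = (PowerSeries.X : KK) * y := by
    intro v f
    have h1 : φ (N v f - v f) = 0 := by
      have h2 := congrFun (WU_pow_map (m := m) φ a w P v) f
      rw [ha1, WU_pow_one w P hP, mo_pow_apply, Pi.smul_apply, smul_eq_mul] at h2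
      have h3 : N v f = ((eta a ^ e : KKˣ) : KK) *
          (WU a w ^ P : (Module.End KK (NX m → KK))ˣ).1 v f := rfl
      have h4 : φ ((eta a ^ e : KKˣ) : KK) = (((-1) ^ e : ℚˣ) : ℚ) := by
        have h5 : Units.map (φ : KK →* ℚ) (eta a ^ e) = (-1) ^ e := by
          rw [map_zpow, eta_map, ha1, eta_one]
        exact congrArg Units.val h5
      rw [map_sub, h3, map_mul, h4, h2, ← mul_assoc]
      have h6 : (((-1) ^ e : ℚˣ) : ℚ) * (-1) ^ ((idx m w).length * P) = 1 := by
        have h7 : ((-1 : ℚˣ) ^ e) * (-1) ^ (((idx m w).length * P : ℕ) : ℤ) = 1 := by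
          rw [← zpow_add]
          apply Even.neg_one_zpow
          have : e + (((idx m w).length * P : ℕ) : ℤ) =
            (e - (((idx m w).length * P : ℕ) : ℤ)) + 2 * (((idx m w).length * P : ℕ) : ℤ) := by ring
          rw [this]
          exact he.add (even_two_mul _)
        have h8 := congrArg Units.val h7
        rw [zpow_natCast, Units.val_mul, Units.val_pow_eq_pow_val, Units.val_neg, Units.val_one]
          at h8
        exact h8
      rw [h6, one_mul, sub_self]
    exact PowerSeries.X_dvd_iff.2 h1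
  choose b hb using key
  have hX : (PowerSeries.X : KK) ≠ 0 := PowerSeries.X_ne_zero
  have hb' : ∀ v f, (PowerSeries.X : KK) * b v f = N v f - v f := fun v f => (hb v f).symm
  refine ⟨{ toFun := b, map_add' := ?_, map_smul' := ?_ }, ?_⟩
  · intro v v'
    funext f
    apply mul_left_cancel₀ hX
    rw [Pi.add_apply, mul_add, hb', hb', hb', map_add, Pi.add_apply, Pi.add_apply]
    ring
  · intro c v
    funext f
    apply mul_left_cancel₀ hX
    rw [RingHom.id_apply, Pi.smul_apply, smul_eq_mul, mul_left_comm, hb', hb', map_smul,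
      Pi.smul_apply, Pi.smul_apply, smul_eq_mul, smul_eq_mul]
    ring
  · apply LinearMap.ext
    intro v
    funext f
    show N v f = v f + (PowerSeries.X : KK) * b v f
    rw [hb']
    ring

/-- the vector of an outside with the writhe factor -/
noncomputable def vec {K : Type*} [CommRing K] (a : Kˣ) (O : Outer m) : NX m → K :=
  ((eta a ^ owr O : Kˣ) : K) • gv a O

theorem vec_eval (hm : 0 < m) {K : Type*} [CommRing K] (a : Kˣ) (O : Outer m) :
    vec a O (st0 m) = spec a O.close.fPoly := by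
  rw [spec_fPoly, close_writhe, close_bracket hm]
  rfl

theorem vec_draw (hm : 0 < m) {K : Type*} [CommRing K] (a : Kˣ) (w : Word) (U : Fin m → Bool)
    (O : Outer m) (hO : O.up = U) : vec a (draw O w) =
      (((eta a ^ (QU m w (U, 0)).2 : Kˣ) : K) • (WU a w : (Module.End K (NX m → K))ˣ).1)
        (vec a O) := by
  have h1 : owr (draw O w) = (QU m w (U, 0)).2 + owr O := by
    have h2 : (stt (draw O w)).2 = (QU m w (U, 0)).2 + owr O := by
      have h3 := QU_shift (m := m) w (U, 0) (owr O)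
      rw [stt_draw]
      have h4 : stt O = (((U, (0:ℤ)) : St m).1, ((U, (0:ℤ)) : St m).2 + owr O) := by
        rw [← hO]
        apply Prod.ext
        · rfl
        · show owr O = 0 + owr O
          rw [zero_add]
      rw [h4, h3]
    exact h2
  unfold vec
  rw [h1, gv_draw hm, LinearMap.smul_apply, map_smul, smul_smul, zpow_add, Units.val_mul]

theorem vec_power (hm : 0 < m) {K : Type*} [CommRing K] (a : Kˣ) (w : Word) (U : Fin m → Bool)
    (P : ℕ) (hP : wperm m w ^ P = 1) (s : ℤ) : ∃ (e : ℤ) (Z : Module.End K (NX m → K)),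
      Even (e - ((idx m w).length * P : ℕ)) ∧ ∀ (O : Outer m) (_ : O.up = U) (t : ℤ),
        vec a (power O w (s + P * t)) =
          ((sU (eta a ^ e) * WU a w ^ P : (Module.End K (NX m → K))ˣ) ^ t).1 (Z (vec a O)) := by
  obtain ⟨e, he, h1⟩ := QU_trans w P hP ((QU m w ^ s) (U, 0))
  set s1 := (QU m w ^ s) (U, 0) with hs1
  refine ⟨e, ((eta a ^ s1.2 : Kˣ) : K) • (WU a w ^ s : (Module.End K (NX m → K))ˣ).1, he, ?_⟩
  intro O hO t
  have h2 : owr (power O w (s + P * t)) = t * e + (s1.2 + owr O) := by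
    have h3 : (stt (power O w (s + P * t))).2 = t * e + (s1.2 + owr O) := by
      have h4 : stt O = (((U, (0:ℤ)) : St m).1, ((U, (0:ℤ)) : St m).2 + owr O) := by
        rw [← hO]
        apply Prod.ext
        · rfl
        · show owr O = 0 + owr O
          rw [zero_add]
      rw [stt_power, h4, zpow_shift, add_comm s, zpow_add, zpow_mul, zpow_natCast,
        Equiv.Perm.mul_apply, ← hs1, h1 t]
      show s1.2 + t * e + owr O = _
      ring
    exact h3
  have h6 : ((sU (eta a ^ e) * WU a w ^ P) ^ t : (Module.End K (NX m → K))ˣ) =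
      sU (eta a ^ (t * e)) * (WU a w ^ P) ^ t := by
    rw [(sU_comm _ _).mul_zpow, sU_zpow, ← zpow_mul, mul_comm e t]
  have h7 : gv a (power O w (s + P * t)) = ((WU a w ^ P) ^ t :
        (Module.End K (NX m → K))ˣ).1 ((WU a w ^ s : (Module.End K (NX m → K))ˣ).1 (gv a O)) := by
    rw [gv_power hm, add_comm s, zpow_add, zpow_mul, zpow_natCast, Units.val_mul]
    rfl
  unfold vec
  rw [h2, h7, h6, Units.val_mul, Module.End.mul_apply, sU_apply, LinearMap.smul_apply, map_smul,
    map_smul, map_smul, smul_smul, smul_smul, zpow_add, zpow_add, Units.val_mul, Units.val_mul,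
    mul_assoc]

/-- the directions after a product of powers depend only on those before -/
theorem power_up (w : Word) (P : ℕ) (hP : wperm m w ^ P = 1) (s t : ℤ) (O : Outer m) :
    (power O w (s + P * t)).up = ((QU m w ^ s) (O.up, 0)).1 := by
  have h3 : (stt (power O w (s + P * t))).1 = ((QU m w ^ s) (O.up, 0)).1 := by
    obtain ⟨e, he, h1⟩ := QU_trans w P hP ((QU m w ^ s) (O.up, 0))
    have h4 : stt O = (((O.up, (0:ℤ)) : St m).1, ((O.up, (0:ℤ)) : St m).2 + owr O) := by
      apply Prod.ext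
      · rfl
      · show owr O = 0 + owr O
        rw [zero_add]
    rw [stt_power, h4, zpow_shift, add_comm s, zpow_add, zpow_mul, zpow_natCast,
      Equiv.Perm.mul_apply, h1 t]
  exact h3

theorem draw_up (w : Word) (O : Outer m) : (draw O w).up = O.up ∘ fperm m w := by
  have h : (stt (draw O w)).1 = (stt O).1 ∘ fperm m w := by rw [stt_draw, QU_fst]
  exact h

theorem family_op (hm : 0 < m) (a : KKˣ) (ha : PowerSeries.constantCoeff (a : KK) = 1) :
    ∀ (k : ℕ) (w u : Fin k → Word) (P : ℕ) (_ : ∀ j, wperm m (w j) ^ P = 1) (s : Fin k → ℤ)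
      (U : Fin m → Bool), ∃ Φ : (Fin k → ℤ) → Module.End KK (NX m → KK), PolyOp Φ ∧
        ∀ (O : Outer m) (_ : O.up = U) (q : Fin k → ℤ),
          vec a (family O w u (s + (P : ℤ) • q)) = Φ q (vec a O)
  | 0, _, _, _, _, _, _ => ⟨fun _ => 1, PolyOp.const 1, fun _ _ _ => rfl⟩
  | k + 1, w, u, P, hP, s, U => by
    obtain ⟨e, Z, he, hZ⟩ := vec_power hm a (w 0) U P (hP 0) (s 0)
    obtain ⟨B, hB⟩ := trivial_X (m := m) a ha (w 0) P (hP 0) e he
    set U1 := ((QU m (w 0) ^ (s 0)) (U, 0)).1 with hU1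
    obtain ⟨Φ, hΦ, h⟩ := family_op hm a ha k (Fin.tail w) (Fin.tail u) P (fun j => hP j.succ)
      (Fin.tail s) (U1 ∘ fperm m (u 0))
    set Y := ((eta a ^ (QU m (u 0) (U1, 0)).2 : KKˣ) : KK) •
      (WU a (u 0) : (Module.End KK (NX m → KK))ˣ).1 with hY
    refine ⟨fun q => (Φ (q ∘ Fin.succ) * (Y * (((sU (eta a ^ e) * WU a (w 0) ^ P) ^ (q 0) :
      (Module.End KK (NX m → KK))ˣ).1 * Z))), ?_, ?_⟩
    · exact (hΦ.rename Fin.succ).comp ((PolyOp.const Y).comp
        ((PolyOp.power _ B hB 0).comp (PolyOp.const Z)))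
    · intro O hO q
      have hq : (s + (P : ℤ) • q) 0 = s 0 + P * q 0 := rfl
      rw [family, hq]
      have hup : (power O (w 0) (s 0 + P * q 0)).up = U1 := by
        rw [power_up (w 0) P (hP 0), hO]
      have htail : Fin.tail (s + (P : ℤ) • q) = Fin.tail s + (P : ℤ) • (q ∘ Fin.succ) := rfl
      rw [htail, h _ (by rw [draw_up, hup]) (q ∘ Fin.succ), vec_draw hm a (u 0) U1 _ hup,
        hZ O hO (q 0)]
      rfl

end Q99.SML4
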