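import Pool.Agent.Q99.SML4.Order
import Pool.Agent.Q99.SML5.Main

/-!
# Explicit orders
-/

set_option autoImplicit false

open Finset LaurentPolynomial Pool.Agent.H891R2.Jones Pool.Agent.W639.RB

namespace Q99.SML4

open Q99.SML Q99.SML2 Pool.Agent.H832R3.VJ

/-! ### degrees -/

theorem natDegree_bernoulli_le (n : ℕ) : (Polynomial.bernoulli n).natDegree ≤ n := by
  unfold Polynomial.bernoulli
  refine Polynomial.natDegree_sum_le_of_forall_le _ _ fun i _ => ?_
  exact (Polynomial.natDegree_monomial_le _).trans (Nat.sub_le _ _)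

theorem exists_anti_deg (n : ℕ) (q : Polynomial ℚ) (hq : q.natDegree ≤ n) :
    ∃ Q : Polynomial ℚ, Q.natDegree ≤ n + 1 ∧ ∀ x : ℚ, Q.eval (x + 1) - Q.eval x = q.eval x := by
  refine ⟨∑ i ∈ range (n + 1), Polynomial.C (q.coeff i / (i + 1)) * Polynomial.bernoulli (i + 1),
    ?_, fun x => ?_⟩
  · refine Polynomial.natDegree_sum_le_of_forall_le _ _ fun i hi => ?_
    rw [Finset.mem_range] at hi
    refine (Polynomial.natDegree_C_mul_le _ _).trans ((natDegree_bernoulli_le _).trans (by omega))
  · rw [Polynomial.eval_finsetSum, Polynomial.eval_finsetSum, ← Finset.sum_sub_distrib,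
      Polynomial.eval_eq_sum_range' (n := n + 1) (by omega)]
    refine Finset.sum_congr rfl fun i _ => ?_
    have h := Polynomial.bernoulli_eval_one_add (i + 1) x
    rw [Polynomial.eval_mul, Polynomial.eval_mul, Polynomial.eval_C, Polynomial.eval_C, add_comm x 1,
      h]
    have h1 : ((i : ℚ) + 1) ≠ 0 := by positivity
    push_cast
    field_simp
    ring

theorem poly_of_diff_deg (n : ℕ) (g : ℤ → ℚ) (q : Polynomial ℚ) (hq : q.natDegree ≤ n)
    (h : ∀ z : ℤ, g (z + 1) - g z = q.eval (z : ℚ)) :
    ∃ p : Polynomial ℚ, p.natDegree ≤ n + 1 ∧ ∀ z : ℤ, g z = p.eval (z : ℚ) := by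
  obtain ⟨Q, hQd, hQ⟩ := exists_anti_deg n q hq
  refine ⟨Q + Polynomial.C (g 0 - Q.eval 0), ?_, ?_⟩
  · refine (Polynomial.natDegree_add_le _ _).trans (max_le hQd ?_)
    rw [Polynomial.natDegree_C]
    exact Nat.zero_le _
  have hstep : ∀ z : ℤ, g (z + 1) - Q.eval ((z : ℚ) + 1) = g z - Q.eval (z : ℚ) := by
    intro z
    have h1 := h z
    have h2 := hQ (z : ℚ)
    linarith
  have key : ∀ z : ℤ, g z - Q.eval (z : ℚ) = g 0 - Q.eval 0 := by
    intro z
    induction z using Int.induction_on with
    | zero => simp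
    | succ i ih =>
      have := hstep i
      push_cast at this ⊢
      rw [this]
      push_cast at ih
      exact ih
    | pred i ih =>
      have := hstep (-(i : ℤ) - 1)
      push_cast at this ih ⊢
      rw [sub_add_cancel, sub_add_cancel] at this
      rw [← this]
      exact ih
  intro z
  rw [Polynomial.eval_add, Polynomial.eval_C, ← key z]
  ring

theorem pow_poly_deg {V : Type*} [AddCommGroup V] [Module KK V] (N : (Module.End KK V)ˣ)
    (B : Module.End KK V) (hN : N.1 = 1 + (PowerSeries.X : KK) • B) (l : V →ₗ[KK] KK) :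
    ∀ (i : ℕ) (v : V), ∃ p : Polynomial ℚ, p.natDegree ≤ i ∧ ∀ z : ℤ,
      PowerSeries.coeff i (l ((N ^ z : (Module.End KK V)ˣ).1 v)) = p.eval (z : ℚ) := by
  intro i
  have hdiff : ∀ (v : V) (z : ℤ), l ((N ^ (z + 1) : (Module.End KK V)ˣ).1 v) -
      l ((N ^ z : (Module.End KK V)ˣ).1 v) =
        PowerSeries.X * l ((N ^ z : (Module.End KK V)ˣ).1 (B v)) := by
    intro v z
    rw [zpow_add_one, Units.val_mul, Module.End.mul_apply, hN, LinearMap.add_apply,
      Module.End.one_apply, LinearMap.smul_apply, map_add, map_add, map_smul, map_smul,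
      smul_eq_mul]
    ring
  induction i with
  | zero =>
    intro v
    have hstep : ∀ z : ℤ, PowerSeries.coeff 0 (l ((N ^ (z + 1) : (Module.End KK V)ˣ).1 v)) =
        PowerSeries.coeff 0 (l ((N ^ z : (Module.End KK V)ˣ).1 v)) := by
      intro z
      rw [← sub_eq_zero, ← map_sub, hdiff, PowerSeries.coeff_zero_X_mul]
    refine ⟨Polynomial.C (PowerSeries.coeff 0 (l ((N ^ (0 : ℤ) : (Module.End KK V)ˣ).1 v))), ?_, ?_⟩
    · rw [Polynomial.natDegree_C]
    intro z
    rw [Polynomial.eval_C]
    induction z using Int.induction_on with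
    | zero => rfl
    | succ i ih => rw [hstep, ih]
    | pred i ih =>
      have := hstep (-(i : ℤ) - 1)
      rw [sub_add_cancel] at this
      rw [← this, ih]
  | succ i ih =>
    intro v
    obtain ⟨q, hqd, hq⟩ := ih (B v)
    refine poly_of_diff_deg i _ q hqd fun z => ?_
    rw [← map_sub, hdiff, PowerSeries.coeff_succ_X_mul, hq]

/-- moments along a line are polynomials of bounded degree -/
theorem line_moment {m k : ℕ} (hm : 0 < m) (O : Outer m) (w u : Fin k → Word)
    (n : Fin k → ℤ) (j : Fin k) (hw : wperm m (w j) = 1) (i : ℕ) :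
    ∃ p : Polynomial ℚ, p.natDegree ≤ i ∧ ∀ z : ℤ,
      (moment i (family O w u (Function.update n j z)).close.fPoly : ℚ) = p.eval (z : ℚ) := by
  obtain ⟨O', x, hx⟩ := family_update m k w u n j O
  obtain ⟨e, l, v, he, hval⟩ := value hm expU O' (w j) x 1 (by rw [pow_one]; exact hw) 0
  obtain ⟨B, hB⟩ := trivial_X (m := m) expU constantCoeff_expU (w j) 1 (by rw [pow_one]; exact hw)
    e he
  obtain ⟨p, hpd, hp⟩ := pow_poly_deg _ B hB l i v
  refine ⟨Polynomial.C (i.factorial : ℚ) * p, (Polynomial.natDegree_C_mul_le _ _).trans hpd,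
    fun z => ?_⟩
  have h1 := hp z
  rw [← hval z, coeff_spec] at h1
  have h3 : (0 : ℤ) + ((1 : ℕ) : ℤ) * z = z := by
    rw [Nat.cast_one]; ring
  rw [h3, ← hx] at h1
  rw [Polynomial.eval_mul, Polynomial.eval_C, ← h1]
  have h2 : (i.factorial : ℚ) ≠ 0 := by exact_mod_cast i.factorial_ne_zero
  field_simp

/-- a moment takes each value rarely, or is constant -/
theorem moment_count {m k : ℕ} (hm : 0 < m) (O : Outer m) (w u : Fin k → Word)
    (hw : ∀ j, wperm m (w j) = 1) (i : ℕ) (c : ℤ)
    (hne : ∃ q : Fin k → ℤ, moment i (family O w u q).close.fPoly ≠ c)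
    (A : Fin k → Finset ℤ) (R : (Fin k → ℤ) → Prop)
    (hR : ∀ q, R q → moment i (family O w u q).close.fPoly = c) :
    {q : Fin k → ℤ | (∀ j, q j ∈ A j) ∧ R q}.ncard ≤ i * ∑ j, ∏ l ∈ univ.erase j, #(A l) := by
  classical
  have hf : {q : Fin k → ℤ | (∀ j, q j ∈ A j) ∧ R q}.Finite := by
    apply (Fintype.piFinset A).finite_toSet.subset
    intro n hn
    rw [Finset.mem_coe, Fintype.mem_piFinset]
    exact hn.1
  rw [Set.ncard_eq_toFinset_card _ hf, ← faces_eq]
  have h := box_count 1 one_pos i k (fun q => moment i (family O w u q).close.fPoly = c)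
    ?_ A hf.toFinset ?_
  · rwa [mul_one] at h
  · intro q j s0 Z hZ hc z
    obtain ⟨p, hpd, hp⟩ := line_moment hm O w u q j (hw j) i
    have hp0 : p - Polynomial.C (c : ℚ) = 0 := by
      by_contra hne0
      have hdeg : (p - Polynomial.C (c : ℚ)).natDegree ≤ i := by
        refine (Polynomial.natDegree_sub_le _ _).trans (max_le hpd ?_)
        rw [Polynomial.natDegree_C]
        exact Nat.zero_le _
      have hinj : Function.Injective (fun z : ℤ => ((s0 + ((1 : ℕ) : ℤ) * z : ℤ) : ℚ)) := by
        intro a b hab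
        have : (s0 + ((1 : ℕ) : ℤ) * a : ℤ) = s0 + ((1 : ℕ) : ℤ) * b := Int.cast_injective hab
        rw [Nat.cast_one] at this
        omega
      have hroots : (Z.image (fun z : ℤ => ((s0 + ((1 : ℕ) : ℤ) * z : ℤ) : ℚ))) ⊆
          (p - Polynomial.C (c : ℚ)).roots.toFinset := by
        intro x hx
        rw [Finset.mem_image] at hx
        obtain ⟨z, hz, rfl⟩ := hx
        rw [Multiset.mem_toFinset, Polynomial.mem_roots hne0, Polynomial.IsRoot,
          Polynomial.eval_sub, Polynomial.eval_C, ← hp, hZ z hz, sub_self]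
      have h1 := Finset.card_le_card hroots
      rw [Finset.card_image_of_injective _ hinj] at h1
      have h2 := (p - Polynomial.C (c : ℚ)).roots.toFinset_card_le
      have h3 := (p - Polynomial.C (c : ℚ)).card_roots'
      omega
    have h4 := hp (s0 + ((1 : ℕ) : ℤ) * z)
    rw [sub_eq_zero.1 hp0, Polynomial.eval_C] at h4
    exact_mod_cast h4
  · intro q hq
    rw [Set.Finite.mem_toFinset] at hq
    obtain ⟨q0, hq0⟩ := hne
    refine ⟨hq.1, hR q hq.2, q0 - q, ?_⟩
    have h3 : q + ((1 : ℕ) : ℤ) • (q0 - q) = q0 := by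
      rw [Nat.cast_one, one_smul]; abel
    rw [h3]
    exact hq0

/-! ### sizes -/

theorem draw_size {m : ℕ} : ∀ (w : Word) (O : Outer m),
    (draw O w).crossings.length ≤ O.crossings.length + w.length ∧
    Fintype.card (draw O w).P ≤ Fintype.card O.P + m * w.length
  | [], O => ⟨le_rfl, le_rfl⟩
  | x :: w, O => by
    have h := draw_size w (O.push x.1 x.2)
    have h1 : draw O (x :: w) = draw (O.push x.1 x.2) w := rfl
    have h23 : (O.push x.1 x.2).crossings.length ≤ O.crossings.length + 1 ∧
        Fintype.card (O.push x.1 x.2).P ≤ Fintype.card O.P + m := by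
      by_cases hx : x.2 + 1 < m
      · rw [Outer.push, dif_pos hx]
        refine ⟨?_, ?_⟩
        · show (O.crossings.map (Crossing.map Sum.inl) ++ [_]).length ≤ _
          rw [List.length_append, List.length_map, List.length_singleton]
        · show Fintype.card (O.P ⊕ Fin m) ≤ _
          rw [Fintype.card_sum, Fintype.card_fin]
      · rw [Outer.push, dif_neg hx]
        exact ⟨Nat.le_add_right _ _, Nat.le_add_right _ _⟩
    obtain ⟨h2, h3⟩ := h23
    rw [h1, List.length_cons]
    constructor
    · omega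
    · calc Fintype.card (draw (O.push x.1 x.2) w).P ≤
            Fintype.card (O.push x.1 x.2).P + m * w.length := h.2
        _ ≤ Fintype.card O.P + m + m * w.length := by omega
        _ = _ := by ring

theorem iter_size {m : ℕ} (w : Word) : ∀ (n : ℕ) (O : Outer m),
    ((fun O : Outer m => draw O w)^[n] O).crossings.length ≤ O.crossings.length + n * w.length ∧
    Fintype.card ((fun O : Outer m => draw O w)^[n] O).P ≤
      Fintype.card O.P + m * (n * w.length)
  | 0, O => by
    rw [Nat.zero_mul, Nat.mul_zero, Nat.add_zero, Nat.add_zero]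
    exact ⟨le_rfl, le_rfl⟩
  | n + 1, O => by
    rw [Function.iterate_succ_apply]
    have h := iter_size w n (draw O w)
    have h1 := draw_size w O
    constructor
    · calc _ ≤ _ := h.1
        _ ≤ (O.crossings.length + w.length) + n * w.length := by omega
        _ = _ := by ring
    · calc _ ≤ _ := h.2
        _ ≤ (Fintype.card O.P + m * w.length) + m * (n * w.length) := by omega
        _ = _ := by ring

theorem power_size {m : ℕ} (w : Word) (n : ℤ) (O : Outer m) :
    (power O w n).crossings.length ≤ O.crossings.length + n.natAbs * w.length ∧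
    Fintype.card (power O w n).P ≤ Fintype.card O.P + m * (n.natAbs * w.length) := by
  rcases n with n | n
  · exact iter_size w n O
  · have h := iter_size (invWord w) (n + 1) O
    have h1 : (invWord w).length = w.length := by
      unfold invWord
      rw [List.length_reverse, List.length_map]
    rw [h1] at h
    exact h

theorem family_size {m : ℕ} : ∀ (k : ℕ) (w u : Fin k → Word) (n : Fin k → ℤ) (O : Outer m),
    (family O w u n).crossings.length ≤
      O.crossings.length + ∑ j, ((n j).natAbs * (w j).length + (u j).length) ∧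
    Fintype.card (family O w u n).P ≤
      Fintype.card O.P + m * ∑ j, ((n j).natAbs * (w j).length + (u j).length)
  | 0, w, u, n, O => by
    rw [Finset.univ_eq_empty, Finset.sum_empty]
    exact ⟨le_rfl, le_rfl⟩
  | k + 1, w, u, n, O => by
    have h1 := power_size (m := m) (w 0) (n 0) O
    have h2 := draw_size (u 0) (power O (w 0) (n 0))
    have h3 := family_size k (Fin.tail w) (Fin.tail u) (Fin.tail n)
      (draw (power O (w 0) (n 0)) (u 0))
    have h4 : ∑ j : Fin (k + 1), ((n j).natAbs * (w j).length + (u j).length) =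
        ((n 0).natAbs * (w 0).length + (u 0).length) +
        ∑ j : Fin k, ((Fin.tail n j).natAbs * (Fin.tail w j).length + (Fin.tail u j).length) := by
      rw [Fin.sum_univ_succ]
      rfl
    rw [family, h4]
    constructor
    · omega
    · calc _ ≤ _ := h3.2
        _ ≤ (Fintype.card O.P + m * ((n 0).natAbs * (w 0).length) + m * (u 0).length) +
            m * ∑ j : Fin k, ((Fin.tail n j).natAbs * (Fin.tail w j).length +
              (Fin.tail u j).length) := by omega
        _ = _ := by ring

end Q99.SML4
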