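import Pool.Agent.Q99.SML4.Poly
import Pool.Agent.Q99.SML2.Knotoid
import Pool.Agent.H832R3.VJ.Fin

/-!
# Vassiliev invariants of one order for families of powers of braids
-/

set_option autoImplicit false

open Finset LaurentPolynomial Pool.Agent.H891R2.Jones Pool.Agent.W639.RB

namespace Q99.SML4

open Q99.SML Q99.SML2 Pool.Agent.H832R3.VJ

/-! ### the exponential variable -/

/-- the exponential series as a unit -/
noncomputable def expU : KKˣ where
  val := PowerSeries.exp ℚ
  inv := PowerSeries.evalNegHom (PowerSeries.exp ℚ)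
  val_inv := PowerSeries.exp_mul_exp_neg_eq_one
  inv_val := by rw [mul_comm, PowerSeries.exp_mul_exp_neg_eq_one]

theorem constantCoeff_expU : PowerSeries.constantCoeff (expU : KK) = 1 :=
  PowerSeries.constantCoeff_exp

theorem coeff_expU (z : ℤ) (j : ℕ) :
    PowerSeries.coeff j ((expU ^ z : KKˣ) : KK) = (z : ℚ) ^ j / (j.factorial : ℚ) := by
  rcases z with z | z
  · have h1 : ((expU ^ (Int.ofNat z) : KKˣ) : KK) = PowerSeries.exp ℚ ^ z := by
      show ((expU ^ ((z : ℕ) : ℤ) : KKˣ) : KK) = _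
      rw [zpow_natCast, Units.val_pow_eq_pow_val]
      rfl
    rw [h1, PowerSeries.exp_pow_eq_rescale_exp, PowerSeries.coeff_rescale, PowerSeries.coeff_exp]
    simp [div_eq_mul_inv]
  · have h1 : ((expU ^ (Int.negSucc z) : KKˣ) : KK) =
        PowerSeries.evalNegHom (PowerSeries.exp ℚ ^ (z + 1)) := by
      rw [zpow_negSucc, ← inv_pow, Units.val_pow_eq_pow_val, map_pow]
      rfl
    rw [h1, PowerSeries.exp_pow_eq_rescale_exp, PowerSeries.evalNegHom, PowerSeries.coeff_rescale,
      PowerSeries.coeff_rescale, PowerSeries.coeff_exp, ← mul_assoc, ← mul_pow]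
    have h2 : ((Int.negSucc z : ℤ) : ℚ) = -1 * ((z + 1 : ℕ) : ℚ) := by
      rw [Int.negSucc_eq]
      push_cast
      ring
    rw [h2]
    simp [div_eq_mul_inv]

theorem coeff_spec (F : ℤ[T;T⁻¹]) (j : ℕ) :
    PowerSeries.coeff j (spec expU F) = (moment j F : ℚ) / (j.factorial : ℚ) := by
  induction F using LaurentPolynomial.induction_on' with
  | add p q hp hq =>
    rw [map_add, map_add, hp, hq, moment_add, Int.cast_add, add_div]
  | C_mul_T n a =>
    have h1 : spec expU (C a) = (a : KK) := by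
      have : (C a : ℤ[T;T⁻¹]) = (a : ℤ[T;T⁻¹]) := by simp
      rw [this, map_intCast]
    rw [map_mul, spec_T, h1, V7.moment_term]
    have h2 : ((a : KK)) * ((expU ^ n : KKˣ) : KK) = (a : ℚ) • ((expU ^ n : KKˣ) : KK) := by
      rw [← zsmul_eq_mul, Int.cast_smul_eq_zsmul]
    rw [h2, map_smul, coeff_expU, smul_eq_mul, Int.cast_mul, Int.cast_pow, mul_div_assoc]

theorem fPoly_of_moment {F G : ℤ[T;T⁻¹]} (h : ∀ j, moment j F = moment j G) : F = G := by
  have h1 := eq_zero_of_moment (1 * (F - G)).coeff.support.card (F - G) 1 le_rfl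
    (fun j _ => by rw [moment_sub, h, sub_self])
  rw [one_mul] at h1
  exact sub_eq_zero.1 h1

/-- moments of the members of a family are polynomials in the exponents -/
theorem family_moment {m k : ℕ} (hm : 0 < m) (O : Outer m) (w u : Fin k → Word) (P : ℕ)
    (hP : ∀ j, wperm m (w j) ^ P = 1) (s : Fin k → ℤ) (i : ℕ) :
    ∃ p : MvPolynomial (Fin k) ℚ, ∀ q : Fin k → ℤ,
      (moment i (family O w u (s + (P : ℤ) • q)).close.fPoly : ℚ) =
        MvPolynomial.eval (fun l => (q l : ℚ)) p := by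
  obtain ⟨Φ, hΦ, h⟩ := family_op hm expU constantCoeff_expU k w u P hP s O.up
  obtain ⟨p, hp⟩ := hΦ (vec expU O) (st0 m) i
  refine ⟨MvPolynomial.C (i.factorial : ℚ) * p, fun q => ?_⟩
  have h1 := hp q
  rw [← h O rfl q, vec_eval hm, coeff_spec] at h1
  rw [map_mul, MvPolynomial.eval_C, ← h1]
  have h2 : (i.factorial : ℚ) ≠ 0 := by exact_mod_cast i.factorial_ne_zero
  field_simp

/-- a sequence of polynomials: the common zeros of the first few are common zeros of all -/
theorem noeth {σ : Type} [Finite σ] (p : ℕ → MvPolynomial σ ℚ) : ∃ d : ℕ, ∀ x : σ → ℚ,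
    (∀ i ≤ d, MvPolynomial.eval x (p i) = 0) → ∀ i, MvPolynomial.eval x (p i) = 0 := by
  let I : ℕ →o Ideal (MvPolynomial σ ℚ) :=
    { toFun := fun n => Ideal.span (p '' Set.Iic n)
      monotone' := fun a b hab => Ideal.span_mono (Set.image_mono (Set.Iic_subset_Iic.2 hab)) }
  obtain ⟨d, hd⟩ := monotone_stabilizes_iff_noetherian.2
    (inferInstance : IsNoetherian (MvPolynomial σ ℚ) (MvPolynomial σ ℚ)) I
  refine ⟨d, fun x hx i => ?_⟩
  have h1 : p i ∈ I d := by
    rw [hd (max d i) (le_max_left _ _)]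
    exact Ideal.subset_span ⟨i, le_max_right d i, rfl⟩
  have h2 : I d ≤ RingHom.ker (MvPolynomial.eval x) := by
    show Ideal.span (p '' Set.Iic d) ≤ _
    rw [Ideal.span_le]
    rintro _ ⟨j, hj, rfl⟩
    exact hx j hj
  exact h2 h1

/-- moments up to one order determine the equality of the members of two families -/
theorem order_pair {m m' k k' : ℕ} (hm : 0 < m) (hm' : 0 < m') (O : Outer m) (O' : Outer m')
    (w u : Fin k → Word) (w' u' : Fin k' → Word) (P P' : ℕ)
    (hP : ∀ j, wperm m (w j) ^ P = 1) (hP' : ∀ j, wperm m' (w' j) ^ P' = 1)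
    (s : Fin k → ℤ) (s' : Fin k' → ℤ) : ∃ d : ℕ, ∀ (q : Fin k → ℤ) (q' : Fin k' → ℤ),
      (∀ j ≤ d, moment j (family O w u (s + (P : ℤ) • q)).close.fPoly =
        moment j (family O' w' u' (s' + (P' : ℤ) • q')).close.fPoly) →
      (family O w u (s + (P : ℤ) • q)).close.fPoly =
        (family O' w' u' (s' + (P' : ℤ) • q')).close.fPoly := by
  choose p hp using fun i => family_moment hm O w u P hP s i
  choose p' hp' using fun i => family_moment hm' O' w' u' P' hP' s' i
  obtain ⟨d, hd⟩ := noeth (σ := Fin k ⊕ Fin k') fun i =>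
    MvPolynomial.rename Sum.inl (p i) - MvPolynomial.rename Sum.inr (p' i)
  have key : ∀ (q : Fin k → ℤ) (q' : Fin k' → ℤ) (i : ℕ),
      MvPolynomial.eval (Sum.elim (fun l => (q l : ℚ)) (fun l => (q' l : ℚ)))
        (MvPolynomial.rename Sum.inl (p i) - MvPolynomial.rename Sum.inr (p' i)) =
      (moment i (family O w u (s + (P : ℤ) • q)).close.fPoly : ℚ) -
        (moment i (family O' w' u' (s' + (P' : ℤ) • q')).close.fPoly : ℚ) := by
    intro q q' i
    rw [map_sub, MvPolynomial.eval_rename, MvPolynomial.eval_rename, hp, hp']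
    rfl
  refine ⟨d, fun q q' h => fPoly_of_moment fun j => ?_⟩
  have h1 := hd _ (fun i hi => by rw [key q q' i, h i hi, sub_self]) j
  rw [key q q' j] at h1
  exact_mod_cast sub_eq_zero.1 h1

theorem moment_of_not_separated {d : ℕ} {X Y : Dia} (h : ¬ Separated d X Y) :
    ∀ j ≤ d, moment j X.D.fPoly = moment j Y.D.fPoly := by
  intro j hj
  by_contra hne
  exact h ⟨j, hj, _, isVassiliev_moment j, hne⟩

/-- the crossingless outside of one strand -/
def plain : Outer 1 where
  P := Unit
  arcs := []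
  crossings := []
  lower := fun _ => ()
  upper := fun _ => ()
  up := fun _ => true

theorem plain_close : plain.close = unknot.D := rfl

/-! ### counting -/

theorem count {r k : ℕ} {m : Fin r → ℕ} (hm : ∀ i, 0 < m i) (O : ∀ i, Outer (m i))
    (w u : Fin r → Fin k → Word) (P : ℕ) (hP : ∀ i j, wperm (m i) (w i j) ^ P = 1)
    (s : Fin k → ℤ) (c : Fin r → ℤ[T;T⁻¹]) (g : ℤ[T;T⁻¹]) :
    (∀ q : Fin k → ℤ,
        ∑ i, c i * (family (O i) (w i) (u i) (s + (P : ℤ) • q)).close.fPoly = g) ∨
      ∀ A : Fin k → Finset ℤ, {q : Fin k → ℤ | (∀ j, q j ∈ A j) ∧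
          ∑ i, c i * (family (O i) (w i) (u i) (s + (P : ℤ) • q)).close.fPoly = g}.ncard ≤
        (∑ i, (m i).choose (m i / 2)) * ∑ j, ∏ l ∈ univ.erase j, #(A l) := by
  classical
  by_cases hall : ∀ q : Fin k → ℤ,
      ∑ i, c i * (family (O i) (w i) (u i) (s + (P : ℤ) • q)).close.fPoly = g
  · exact Or.inl hall
  right
  intro A
  have hf : {q : Fin k → ℤ | (∀ j, q j ∈ A j) ∧
      ∑ i, c i * (family (O i) (w i) (u i) (s + (P : ℤ) • q)).close.fPoly = g}.Finite := by
    apply (Fintype.piFinset A).finite_toSet.subset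
    intro n hn
    rw [Finset.mem_coe, Fintype.mem_piFinset]
    exact hn.1
  rw [Set.ncard_eq_toFinset_card _ hf, ← faces_eq]
  have h := box_count 1 one_pos (∑ i, (m i).choose (m i / 2)) k
    (fun q => ∑ i, c i * (family (O i) (w i) (u i) (s + (P : ℤ) • q)).close.fPoly = g)
    ?_ A hf.toFinset ?_
  · rwa [mul_one] at h
  · intro q j s0 Z hZ hc z
    have hupd : ∀ y : ℤ, s + (P : ℤ) • Function.update q j (s0 + ((1 : ℕ) : ℤ) * y) =
        Function.update (s + (P : ℤ) • q) j ((s j + P * s0) + P * y) := by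
      intro y
      funext l
      by_cases hl : l = j
      · subst hl
        rw [Pi.add_apply, Pi.smul_apply, Function.update_self, Function.update_self, smul_eq_mul,
          Nat.cast_one]
        ring
      · rw [Pi.add_apply, Pi.smul_apply, Function.update_of_ne hl, Function.update_of_ne hl,
          Pi.add_apply, Pi.smul_apply]
    have h1 := line hm O w u c g P (s + (P : ℤ) • q) j (fun i => hP i j) (s j + P * s0) Z
      (fun y hy => by
        rw [← hupd]
        exact hZ y hy) hc z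
    rw [← hupd] at h1
    exact h1
  · intro q hq
    rw [Set.Finite.mem_toFinset] at hq
    push Not at hall
    obtain ⟨q0, hq0⟩ := hall
    refine ⟨hq.1, hq.2, q0 - q, ?_⟩
    have h3 : q + ((1 : ℕ) : ℤ) • (q0 - q) = q0 := by
      rw [Nat.cast_one, one_smul]; abel
    rw [h3]
    exact hq0

/-- closed diagrams -/
theorem family_closed {m k : ℕ} (O : Outer m) (w u : Fin k → Word) (P : ℕ)
    (hP : ∀ j, wperm m (w j) ^ P = 1) (s : Fin k → ℤ) (hO : O.close.IsClosed)
    (hup : (family O w u s).up = O.up) (q : Fin k → ℤ) :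
    (family O w u (s + (P : ℤ) • q)).close.IsClosed := by
  obtain ⟨x, hx⟩ := family_word m k w u (s + (P : ℤ) • q)
  have h1 := family_up k w u P hP s q O O rfl
  rw [hx] at h1 ⊢
  rw [closed_iff, h1, hup]
  exact good_draw _ x O ((closed_iff O).1 hO)

end Q99.SML4
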